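import Pool.Agent.Lib.MP_e2be92_co.PX.Pre

/-! From the small-ball estimate to signs that balance all initial segments. -/

open Matrix MeasureTheory

namespace Pool.Agent.MS

theorem px_rpow {s t : ℝ} (hs : 0 ≤ s) (ht : 0 ≤ t) (h : 20 * t ≤ 19 * s) :
    200 * t ^ (1 / 10 : ℝ) ≤ 199 * s ^ (1 / 10 : ℝ) := by
  have h1 : t ≤ (199 / 200 : ℝ) ^ (10 : ℕ) * s := by
    have : (19 / 20 : ℝ) ≤ (199 / 200 : ℝ) ^ (10 : ℕ) := by norm_num
    nlinarith
  have h2 : t ^ (1 / 10 : ℝ) ≤ ((199 / 200 : ℝ) ^ (10 : ℕ) * s) ^ (1 / 10 : ℝ) :=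
    Real.rpow_le_rpow ht h1 (by norm_num)
  have h3 : (((199 / 200 : ℝ) ^ (10 : ℕ)) ^ (1 / 10 : ℝ)) = 199 / 200 := by
    rw [← Real.rpow_natCast, ← Real.rpow_mul (by norm_num)]
    norm_num
  rw [Real.mul_rpow (by positivity) hs, h3] at h2
  linarith

/-- Iterated half colouring. -/
theorem px_rec {ι X : Type} [DecidableEq ι] (f : X → ι → ℝ) (g : X → ℝ) (hg : ∀ x, 0 ≤ g x)
    (h : ∀ S : Finset ι, S.Nonempty → ∃ χ : S → ℝ, (∀ i, χ i = 0 ∨ χ i = 1 ∨ χ i = -1) ∧
      (∀ x, ∑ i, χ i * f x i ≤ (S.card : ℝ) ^ (1 / 10 : ℝ) * g x) ∧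
      20 * ((Finset.univ.filter fun i => χ i = 0).card : ℝ) ≤ 19 * S.card) (m : ℕ) :
    ∀ S : Finset ι, S.card = m → ∃ ε : ι → ℝ, (∀ i ∈ S, ε i = 1 ∨ ε i = -1) ∧
      ∀ x, ∑ i ∈ S, ε i * f x i ≤ 200 * (S.card : ℝ) ^ (1 / 10 : ℝ) * g x := by
  induction m using Nat.strong_induction_on with
  | _ m ih =>
    intro S hS
    rcases S.eq_empty_or_nonempty with rfl | hne
    · refine ⟨0, by simp, fun x => ?_⟩
      have := hg x
      rw [Finset.sum_empty]
      positivity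
    have hpos : 0 < S.card := hne.card_pos
    obtain ⟨χ, k1, k2, k3⟩ := h S hne
    let χ' : ι → ℝ := fun i => if hi : i ∈ S then χ ⟨i, hi⟩ else 0
    have hχ : ∀ i : S, χ' i = χ i := fun i => dif_pos i.2
    let S' := S.filter fun i => χ' i = 0
    have hcard : S'.card = (Finset.univ.filter fun i => χ i = 0).card := by
      symm
      refine Finset.card_bij (fun i _ => (i : ι)) ?_ ?_ ?_
      · intro i hi
        exact Finset.mem_filter.2 ⟨i.2, (hχ i).trans (Finset.mem_filter.1 hi).2⟩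
      · intro i _ j _ hij
        exact Subtype.ext hij
      · intro i hi
        obtain ⟨h3, h4⟩ := Finset.mem_filter.1 hi
        exact ⟨⟨i, h3⟩, Finset.mem_filter.2 ⟨Finset.mem_univ _, (hχ ⟨i, h3⟩).symm.trans h4⟩, rfl⟩
    rw [← hcard] at k3
    have hlt : S'.card < m := by
      have h3 : (0 : ℝ) < S.card := by exact_mod_cast hpos
      have h4 : (S'.card : ℝ) < S.card := by linarith
      rw [← hS]
      exact_mod_cast h4
    obtain ⟨ε', l1, l2⟩ := ih _ hlt S' rfl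
    refine ⟨fun i => if χ' i = 0 then ε' i else χ' i, fun i hi => ?_, fun x => ?_⟩
    · by_cases h0 : χ' i = 0
      · simp only [h0, if_true]
        exact l1 i (Finset.mem_filter.2 ⟨hi, h0⟩)
      · simp only [h0, if_false]
        have := k1 ⟨i, hi⟩
        rw [← hχ ⟨i, hi⟩] at this
        exact this.resolve_left h0
    · have e1 : ∑ i ∈ S, (if χ' i = 0 then ε' i else χ' i) * f x i =
          ∑ i ∈ S, χ' i * f x i + ∑ i ∈ S', ε' i * f x i := by
        rw [Finset.sum_filter, ← Finset.sum_add_distrib]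
        refine Finset.sum_congr rfl fun i _ => ?_
        by_cases h0 : χ' i = 0 <;> simp [h0]
      have e2 : ∑ i ∈ S, χ' i * f x i = ∑ i : S, χ i * f x i := by
        rw [← Finset.sum_coe_sort]
        exact Finset.sum_congr rfl fun i _ => by rw [hχ]
      rw [e1, e2]
      have h3 := px_rpow (Nat.cast_nonneg S.card) (Nat.cast_nonneg S'.card) k3
      have h5 := mul_le_mul_of_nonneg_right h3 (hg x)
      have h6 := k2 x
      have h7 := l2 x
      linarith

variable {ι κ O : Type} [Fintype ι] [DecidableEq ι] [Fintype κ] [DecidableEq κ] [Fintype O]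
  [DecidableEq O]

theorem px_half {A : ι → Matrix κ κ ℝ} (h : Con A) {k : O → ι → ℕ}
    (hk : ∀ o, Function.Injective (k o)) (h1 : 1 ≤ Fintype.card ι)
    (h2 : Fintype.card ι ≤ Fintype.card O * Fintype.card κ) :
    ∃ χ : ι → ℝ, (∀ i, χ i = 0 ∨ χ i = 1 ∨ χ i = -1) ∧
      (∀ o t (u : κ → ℝ), ∑ i, χ i * (if k o i < t then u ⬝ᵥ (A i *ᵥ u) else 0) ≤
        (Fintype.card ι : ℝ) ^ (1 / 10 : ℝ) *
          (3600000 * (Fintype.card O * Fintype.card κ : ℝ) ^ (2 / 5 : ℝ) * (u ⬝ᵥ u))) ∧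
      20 * ((Finset.univ.filter fun i => χ i = 0).card : ℝ) ≤ 19 * Fintype.card ι := by
  let c : O → ℕ → ℕ := fun o t => (Finset.univ.filter fun j => k o j < t).card
  have hc : ∀ o i t, k o i < t ↔ c o (k o i) < c o t := fun o i t => by
    refine ⟨fun hi => Finset.card_lt_card ⟨fun j hj => ?_, fun hs => ?_⟩, fun hi => ?_⟩
    · exact Finset.mem_filter.2 ⟨Finset.mem_univ _, (Finset.mem_filter.1 hj).2.trans hi⟩
    · exact lt_irrefl _ (Finset.mem_filter.1 (hs (Finset.mem_filter.2 ⟨Finset.mem_univ i, hi⟩))).2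
    · by_contra hn
      exact absurd hi (not_lt.2 (Finset.card_le_card fun j hj => Finset.mem_filter.2
        ⟨Finset.mem_univ _, (Finset.mem_filter.1 hj).2.trans_le (not_lt.1 hn)⟩))
  have hb := px_prefix h (r := fun o i => c o (k o i))
    (fun o i j hij => hk o (le_antisymm (not_lt.1 fun hn => ((hc o j _).1 hn).ne' hij)
      (not_lt.1 fun hn => ((hc o i _).1 hn).ne hij)))
    (fun o i => Finset.card_lt_card ⟨Finset.subset_univ _, fun hs =>
      lt_irrefl _ (Finset.mem_filter.1 (hs (Finset.mem_univ i))).2⟩) h1 h2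
  have sc := h.sc (fun s : O × ℕ => Finset.univ.filter fun i => c s.1 (k s.1 i) < s.2)
    (1800000 * (Fintype.card O * Fintype.card κ : ℝ) ^ (2 / 5 : ℝ) *
      (Fintype.card ι : ℝ) ^ (1 / 10 : ℝ))
  obtain ⟨χ, k1, k2, k3⟩ := half_colouring h1 sc.ms sc.cv sc.ng hb
  refine ⟨χ, k1, fun o t u => ?_, k3⟩
  have k4 := k2 (o, c o t) u
  simp only [Pi.smul_apply, smul_eq_mul, mul_assoc, ← Finset.mul_sum, ← hc] at k4
  simp only [Finset.sum_filter] at k4
  simp only [mul_ite, mul_zero]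
  linarith

theorem px_signs {A : ι → Matrix κ κ ℝ} (h : Con A) {k : O → ι → ℕ}
    (hk : ∀ o, Function.Injective (k o))
    (h2 : Fintype.card ι ≤ Fintype.card O * Fintype.card κ) :
    ∃ ε : ι → ℝ, (∀ i, ε i = 1 ∨ ε i = -1) ∧
      ∀ o t (u : κ → ℝ), ∑ i with k o i < t, ε i * (u ⬝ᵥ (A i *ᵥ u)) ≤
        720000000 * (Fintype.card O * Fintype.card κ : ℝ) ^ (2 / 5 : ℝ) *
          (Fintype.card ι : ℝ) ^ (1 / 10 : ℝ) * (u ⬝ᵥ u) := by
  obtain ⟨ε, k1, k2⟩ := px_rec (X := O × ℕ × (κ → ℝ))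
    (fun x i => if k x.1 i < x.2.1 then x.2.2 ⬝ᵥ (A i *ᵥ x.2.2) else 0)
    (fun x => 3600000 * (Fintype.card O * Fintype.card κ : ℝ) ^ (2 / 5 : ℝ) * (x.2.2 ⬝ᵥ x.2.2))
    (fun x => mul_nonneg (by positivity) (dot_self_nonneg _))
    (fun S hS => by
      obtain ⟨Q, hQ, hQA⟩ := h.flip
      obtain ⟨χ, l1, l2, l3⟩ := px_half (A := fun i : S => A i) (k := fun o i => k o i)
        ⟨fun i => h.sym i, fun i => h.con i, Q, hQ, fun i => hQA i⟩
        (fun o => (hk o).comp Subtype.val_injective)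
        (by rw [Fintype.card_coe]; exact hS.card_pos)
        (by rw [Fintype.card_coe]; exact (Finset.card_le_univ S).trans h2)
      rw [Fintype.card_coe] at l2 l3
      exact ⟨χ, l1, fun x => l2 _ _ _, l3⟩) _ Finset.univ rfl
  refine ⟨ε, fun i => k1 i (Finset.mem_univ i), fun o t u => ?_⟩
  have k3 := k2 (o, t, u)
  simp only [mul_ite, mul_zero, Finset.card_univ] at k3
  rw [Finset.sum_filter]
  linarith

end Pool.Agent.MS
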