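import Pool.Agent.Lib.MP_e2be92_co.PX.Col

/-! Symmetrisation, the operator norm, and the transference to orderings. -/

open Matrix
open scoped RealInnerProductSpace

namespace Pool.Agent.MS

variable {κ : Type} [Fintype κ]

theorem px_transpose (B : Matrix κ κ ℝ) (hB : ∀ x, (B *ᵥ x) ⬝ᵥ (B *ᵥ x) ≤ x ⬝ᵥ x) (y : κ → ℝ) :
    (Bᵀ *ᵥ y) ⬝ᵥ (Bᵀ *ᵥ y) ≤ y ⬝ᵥ y := by
  have h1 : (Bᵀ *ᵥ y) ⬝ᵥ (Bᵀ *ᵥ y) = y ⬝ᵥ (B *ᵥ (Bᵀ *ᵥ y)) := by
    rw [Matrix.dotProduct_mulVec y, ← Matrix.mulVec_transpose]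
  have h2 := dot_self_nonneg (y - B *ᵥ (Bᵀ *ᵥ y))
  rw [sub_dotProduct, dotProduct_sub, dotProduct_sub, dotProduct_comm (B *ᵥ _) y] at h2
  have h3 := hB (Bᵀ *ᵥ y)
  linarith

theorem px_dot (w x w' x' : κ → ℝ) : Sum.elim w x ⬝ᵥ Sum.elim w' x' = w ⬝ᵥ w' + x ⬝ᵥ x' := by
  simp [dotProduct, Fintype.sum_sum_type]

theorem px_block (B : Matrix κ κ ℝ) (w x : κ → ℝ) :
    Matrix.fromBlocks 0 B Bᵀ 0 *ᵥ Sum.elim w x = Sum.elim (B *ᵥ x) (Bᵀ *ᵥ w) := by
  rw [Matrix.fromBlocks_mulVec]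
  simp

theorem px_con [DecidableEq κ] {ι : Type} (A : ι → Matrix κ κ ℝ)
    (hA : ∀ i x, (A i *ᵥ x) ⬝ᵥ (A i *ᵥ x) ≤ x ⬝ᵥ x) :
    Con fun i => Matrix.fromBlocks 0 (A i) (A i)ᵀ 0 := by
  refine ⟨fun i => by simp [Matrix.fromBlocks_transpose], fun i u => ?_,
    Matrix.fromBlocks 1 0 0 (-1),
    by simp [Matrix.fromBlocks_transpose, Matrix.fromBlocks_multiply], fun i => by
      simp [Matrix.fromBlocks_transpose, Matrix.fromBlocks_multiply, Matrix.fromBlocks_neg]⟩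
  rw [← Sum.elim_comp_inl_inr u, px_block, px_dot, px_dot]
  have h1 := hA i (u ∘ Sum.inr)
  have h2 := px_transpose (A i) (hA i) (u ∘ Sum.inl)
  linarith

theorem px_const (w n : ℕ) : ((w : ℝ) * (n + n : ℕ)) ^ (2 / 5 : ℝ) * (n : ℝ) ^ (1 / 10 : ℝ) ≤
    2 * (w : ℝ) ^ (2 / 5 : ℝ) * √n := by
  have hn : (0 : ℝ) ≤ n := Nat.cast_nonneg n
  have hw : (0 : ℝ) ≤ w := Nat.cast_nonneg w
  have h1 : ((w : ℝ) * (n + n : ℕ)) ^ (2 / 5 : ℝ) =
      (2 : ℝ) ^ (2 / 5 : ℝ) * (w : ℝ) ^ (2 / 5 : ℝ) * (n : ℝ) ^ (2 / 5 : ℝ) := by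
    rw [← Real.mul_rpow (by norm_num) hw, ← Real.mul_rpow (by positivity) hn]
    congr 1
    push_cast
    ring
  have h2 : (2 : ℝ) ^ (2 / 5 : ℝ) ≤ 2 :=
    (Real.rpow_le_rpow_of_exponent_le (by norm_num) (by norm_num)).trans_eq (Real.rpow_one 2)
  have h3 : (n : ℝ) ^ (2 / 5 : ℝ) * (n : ℝ) ^ (1 / 10 : ℝ) = √n := by
    rw [← Real.rpow_add' hn (by norm_num), Real.sqrt_eq_rpow]
    norm_num
  rw [h1, mul_assoc, h3]
  gcongr

theorem px_opNorm {E : Type} [NormedAddCommGroup E] [InnerProductSpace ℝ E] (T : E →L[ℝ] E)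
    {Λ : ℝ} (hΛ : 0 ≤ Λ) (h : ∀ w x, 2 * ⟪w, T x⟫ ≤ Λ * (‖w‖ ^ 2 + ‖x‖ ^ 2)) : ‖T‖ ≤ Λ := by
  refine T.opNorm_le_of_unit_norm hΛ fun x hx => ?_
  rcases (norm_nonneg (T x)).eq_or_lt with h0 | h0
  · exact h0 ▸ hΛ
  · have h1 := h (‖T x‖⁻¹ • T x) x
    rw [real_inner_smul_left, real_inner_self_eq_norm_sq, norm_smul, norm_inv, norm_norm,
      inv_mul_cancel₀ h0.ne', hx, sq ‖T x‖, inv_mul_cancel_left₀ h0.ne'] at h1
    linarith

/-- Signs that balance all initial sums along several orderings. -/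
theorem px_main (n w : ℕ)
    (A : Fin n → (EuclideanSpace ℝ (Fin n) →L[ℝ] EuclideanSpace ℝ (Fin n))) (hA : ∀ i, ‖A i‖ ≤ 1)
    (π : Fin w → Equiv.Perm (Fin n)) :
    ∃ ε : Fin n → ℝ, (∀ i, ε i = 1 ∨ ε i = -1) ∧ ∀ (o : Fin w) (t : ℕ),
      ‖∑ s : Fin n with s.val < t, ε (π o s) • A (π o s)‖ ≤
        1440000000 * (w : ℝ) ^ (2 / 5 : ℝ) * √n := by
  rcases Nat.eq_zero_or_pos w with rfl | hw
  · exact ⟨fun _ => 1, fun _ => Or.inl rfl, fun o => o.elim0⟩
  set e := toEuclideanCLM (n := Fin n) (𝕜 := ℝ) with he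
  have hin : ∀ a b : EuclideanSpace ℝ (Fin n), ⟪a, b⟫ = a.ofLp ⬝ᵥ b.ofLp := fun a b => by
    simp [PiLp.inner_apply, dotProduct, mul_comm]
  have hM : ∀ i (x : EuclideanSpace ℝ (Fin n)), e.symm (A i) *ᵥ x.ofLp = (A i x).ofLp :=
    fun i x => by rw [← ofLp_toEuclideanCLM, ← he, e.apply_symm_apply]
  have hcon := px_con (fun i => e.symm (A i)) fun i x => by
    have h1 : ‖A i (WithLp.toLp 2 x)‖ ≤ ‖(WithLp.toLp 2 x : EuclideanSpace ℝ (Fin n))‖ :=
      ((A i).le_opNorm _).trans (mul_le_of_le_one_left (norm_nonneg _) (hA i))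
    have h2 := pow_le_pow_left₀ (norm_nonneg _) h1 2
    rw [← real_inner_self_eq_norm_sq, ← real_inner_self_eq_norm_sq, hin, hin, ← hM] at h2
    exact h2
  obtain ⟨ε, k1, k2⟩ := px_signs hcon (k := fun o i => ((π o).symm i : ℕ))
    (fun o => Fin.val_injective.comp (π o).symm.injective) (by
      simp only [Fintype.card_fin, Fintype.card_sum]
      exact (Nat.le_add_right n n).trans (Nat.le_mul_of_pos_left _ hw))
  refine ⟨ε, k1, fun o t => px_opNorm _ (by positivity) fun y x => ?_⟩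
  have h1 := k2 o t (Sum.elim y.ofLp x.ofLp)
  have e1 : ∀ i, x.ofLp ⬝ᵥ ((e.symm (A i))ᵀ *ᵥ y.ofLp) = y.ofLp ⬝ᵥ (e.symm (A i) *ᵥ x.ofLp) :=
    fun i => by rw [Matrix.mulVec_transpose, dotProduct_comm, ← Matrix.dotProduct_mulVec]
  simp only [px_block, px_dot, e1, hM, ← hin, real_inner_self_eq_norm_sq, Fintype.card_sum,
    Fintype.card_fin] at h1
  have e2 : ∑ s : Fin n with s.val < t, ε (π o s) • A (π o s) =
      ∑ i with ((π o).symm i : ℕ) < t, ε i • A i :=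
    Finset.sum_equiv (π o) (by simp) fun _ _ => rfl
  rw [e2, _root_.sum_apply, inner_sum, Finset.mul_sum]
  refine le_trans (le_of_eq (Finset.sum_congr rfl fun i _ => ?_)) (h1.trans ?_)
  · rw [_root_.smul_apply, real_inner_smul_right]; ring
  · refine mul_le_mul_of_nonneg_right ?_ (by positivity)
    linarith [px_const w n]

/-- Transference from signs to orderings. -/
theorem px_transfer {E : Type} [NormedAddCommGroup E] [NormedSpace ℝ E] {n : ℕ} (A : Fin n → E)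
    (h0 : ∑ i, A i = 0) {β : ℝ}
    (h : ∀ σ : Equiv.Perm (Fin n), ∃ ε : Fin n → ℝ, (∀ i, ε i = 1 ∨ ε i = -1) ∧
      ∀ t : ℕ, ‖∑ s : Fin n with s.val < t, ε s • A (σ s)‖ ≤ β) :
    ∃ σ : Equiv.Perm (Fin n), ∀ t : ℕ, ‖∑ s : Fin n with s.val < t, A (σ s)‖ ≤ β := by
  let P : Equiv.Perm (Fin n) → ℕ → ℝ := fun σ t => ‖∑ s : Fin n with s.val < t, A (σ s)‖
  let M : Equiv.Perm (Fin n) → ℝ := fun σ =>
    (Finset.range (n + 1)).sup' Finset.nonempty_range_add_one (P σ)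
  have hM : ∀ σ t, P σ t ≤ M σ := fun σ t => by
    have e : P σ t = P σ (min t n) := by simp only [P, lt_min_iff, Fin.is_lt, and_true]
    rw [e]
    exact Finset.le_sup' (P σ) (Finset.mem_range.2 (Nat.lt_succ_of_le (min_le_right _ _)))
  obtain ⟨σ, -, hσ⟩ := Finset.exists_min_image Finset.univ M Finset.univ_nonempty
  obtain ⟨ε, h1, h2⟩ := h σ
  have half : ∀ (c : ℕ) (η : ℝ), η = 1 ∨ η = -1 →
      ‖∑ s : Fin n with s.val < c ∧ ε s = η, A (σ s)‖ ≤ (M σ + β) / 2 := fun c η hη => by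
    have e : ∑ s : Fin n with s.val < c ∧ ε s = η, A (σ s) =
        (1 / 2 : ℝ) • (∑ s : Fin n with s.val < c, A (σ s) +
          η • ∑ s : Fin n with s.val < c, ε s • A (σ s)) := by
      simp only [Finset.sum_filter, Finset.smul_sum, ← Finset.sum_add_distrib]
      refine Finset.sum_congr rfl fun s _ => ?_
      by_cases hs : s.val < c
      · rcases hη with rfl | rfl <;> rcases h1 s with h3 | h3 <;> norm_num [hs, h3] <;> module
      · simp [hs]
    have e' : ‖η‖ = 1 := by rcases hη with rfl | rfl <;> simp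
    rw [e, norm_smul, Real.norm_of_nonneg (by norm_num)]
    have h3 := norm_add_le (∑ s : Fin n with s.val < c, A (σ s))
      (η • ∑ s : Fin n with s.val < c, ε s • A (σ s))
    rw [norm_smul, e', one_mul] at h3
    linarith [hM σ c, h2 c]
  let k : Fin n → ℕ := fun s => if ε s = 1 then s else 2 * n - s
  have hk : Function.Injective k := fun a b hab => by
    have := a.is_lt
    have := b.is_lt
    simp only [k] at hab
    split_ifs at hab <;> exact Fin.ext (by omega)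
  have hcut : ∀ c : ℕ, ‖∑ s : Fin n with k s < c, A (σ s)‖ ≤ (M σ + β) / 2 := fun c => by
    by_cases hc : c ≤ n
    · rw [Finset.filter_congr (q := fun s : Fin n => s.val < c ∧ ε s = 1) fun s _ => by
        have := s.is_lt
        by_cases h3 : ε s = 1 <;> simp only [k, h3, if_true, if_false, and_true, and_false,
          iff_false]
        omega]
      exact half c 1 (Or.inl rfl)
    · have e := Finset.sum_filter_add_sum_filter_not Finset.univ (fun s => k s < c)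
        fun s => A (σ s)
      rw [Equiv.sum_comp σ A, h0, add_eq_zero_iff_eq_neg] at e
      rw [e, norm_neg, Finset.filter_congr
        (q := fun s : Fin n => s.val < 2 * n + 1 - c ∧ ε s = -1) fun s _ => by
          have := s.is_lt
          rcases h1 s with h3 | h3 <;> norm_num [k, h3] <;> omega]
      exact half _ (-1) (Or.inr rfl)
  have hmono : StrictMono (k ∘ Tuple.sort k) :=
    (Tuple.monotone_sort k).strictMono_of_injective (hk.comp (Tuple.sort k).injective)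
  have hnew : M ((Tuple.sort k).trans σ) ≤ (M σ + β) / 2 := by
    refine Finset.sup'_le _ _ fun t _ => ?_
    obtain ⟨c, hc⟩ : ∃ c, ∀ s : Fin n, s.val < t ↔ k (Tuple.sort k s) < c := by
      by_cases ht : t < n
      · exact ⟨k (Tuple.sort k ⟨t, ht⟩), fun s => (hmono.lt_iff_lt (a := s) (b := ⟨t, ht⟩)).symm⟩
      · refine ⟨2 * n + 1, fun s => iff_of_true (s.is_lt.trans_le (not_lt.1 ht)) ?_⟩
        have := (Tuple.sort k s).is_lt
        simp only [k]
        split_ifs <;> omega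
    refine le_trans (le_of_eq (congrArg norm ?_)) (hcut c)
    exact Finset.sum_equiv (Tuple.sort k) (by simpa using hc) fun _ _ => rfl
  exact ⟨σ, fun t => (hM σ t).trans (by linarith [hσ _ (Finset.mem_univ ((Tuple.sort k).trans σ))])⟩

end Pool.Agent.MS
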