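import Pool.Agent.Lib.MP_e2be92_co.Half
import Pool.Agent.Shared.BM.Slice

/-! The weak Gaussian correlation inequality for symmetric convex sets. -/

open Matrix MeasureTheory Set

namespace Pool.Agent.MS

variable {ι : Type} [Fintype ι]

theorem px_pl {f g h : (ι → ℝ) → ENNReal} (hf : Measurable f) (hg : Measurable g)
    (hh : Measurable h) (H : ∀ x y, f x * g y ≤ h ((1 / 2 : ℝ) • (x + y)) ^ 2) :
    (∫⁻ x, f x) * ∫⁻ y, g y ≤ (∫⁻ w, h w) ^ 2 := by
  have T := (volume_preserving_arrowCongr' (Fintype.equivFin ι).symm (MeasurableEquiv.refl ℝ)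
    (MeasurePreserving.id volume)).comp (PiLp.volume_preserving_ofLp (Fin (Fintype.card ι)))
  rw [← T.lintegral_comp hf, ← T.lintegral_comp hg, ← T.lintegral_comp hh]
  exact Shared.BM.pl _ (hf.comp T.measurable) (hg.comp T.measurable) (hh.comp T.measurable)
    fun x y => H _ _

theorem px_rho (x y : ι → ℝ) : rho x * rho y ≤ rho ((1 / 2 : ℝ) • (x + y)) ^ 2 := by
  have h := dot_self_nonneg (x - y)
  simp only [sub_dotProduct, dotProduct_sub, dotProduct_comm y x] at h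
  have e : ((1 / 2 : ℝ) • (x + y)) ⬝ᵥ ((1 / 2 : ℝ) • (x + y)) =
      (x ⬝ᵥ x + 2 * (x ⬝ᵥ y) + y ⬝ᵥ y) / 4 := by
    simp only [smul_dotProduct, dotProduct_smul, add_dotProduct, dotProduct_add,
      dotProduct_comm y x, smul_eq_mul]
    ring
  unfold rho
  rw [e, mul_pow, mul_mul_mul_comm, ← sq, ← Real.exp_add, ← Real.exp_nat_mul]
  refine mul_le_mul_of_nonneg_left (Real.exp_le_exp.2 ?_) (sq_nonneg _)
  push_cast
  linarith

/-- A set has at most the Gaussian measure of half of its difference set. -/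
theorem px_anderson {C M : Set (ι → ℝ)} (hC : MeasurableSet C) (hM : MeasurableSet M)
    (H : ∀ x ∈ C, ∀ y ∈ C, (1 / 2 : ℝ) • (x - y) ∈ M) : gam ι C ≤ gam ι M := by
  have hC' : MeasurableSet {x : ι → ℝ | -x ∈ C} := measurable_neg hC
  have e : gam ι {x : ι → ℝ | -x ∈ C} = gam ι C := by
    conv_rhs => rw [← gam_neg, Measure.map_apply measurable_neg hC]
    rfl
  have key : gam ι C * gam ι {x : ι → ℝ | -x ∈ C} ≤ gam ι M ^ 2 := by
    rw [gam_apply _ hC, gam_apply _ hC', gam_apply _ hM, ← lintegral_indicator hC,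
      ← lintegral_indicator hC', ← lintegral_indicator hM]
    refine px_pl (measurable_rho'.indicator hC) (measurable_rho'.indicator hC')
      (measurable_rho'.indicator hM) fun x y => ?_
    by_cases hx : x ∈ C
    · by_cases hy : y ∈ {x : ι → ℝ | -x ∈ C}
      · have h1 := H x hx (-y) hy
        rw [sub_neg_eq_add] at h1
        rw [indicator_of_mem hx, indicator_of_mem hy, indicator_of_mem h1,
          ← ENNReal.ofReal_mul (rho_pos _).le, ← ENNReal.ofReal_pow (rho_pos _).le]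
        exact ENNReal.ofReal_le_ofReal (px_rho x y)
      · rw [indicator_of_notMem hy, mul_zero]; exact zero_le
    · rw [indicator_of_notMem hx, zero_mul]; exact zero_le
  rw [e] at key
  simpa using Shared.BM.min_le_of_mul_le_sq key

theorem px_rot {c s : ℝ} (h : c ^ 2 + s ^ 2 = 1) :
    MeasurePreserving (fun p : (ι → ℝ) × (ι → ℝ) => (c • p.1 + s • p.2, (-s) • p.1 + c • p.2))
      ((gam ι).prod (gam ι)) ((gam ι).prod (gam ι)) :=
  ((cov_split (ι := ι)).comp (cov_rot_mp h)).comp (cov_split (ι := ι)).symm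

/-- Symmetric convex measurable sets. -/
structure SC (K : Set (ι → ℝ)) : Prop where
  ms : MeasurableSet K
  cv : Convex ℝ K
  ng : ∀ y ∈ K, -y ∈ K

/-- The dilate of `K` by the factor `θ`. -/
def dil (θ : ℝ) (K : Set (ι → ℝ)) : Set (ι → ℝ) := {y | θ⁻¹ • y ∈ K}

omit [Fintype ι] in
theorem SC.dil {K : Set (ι → ℝ)} (h : SC K) (θ : ℝ) : SC (dil θ K) where
  ms := measurable_const_smul θ⁻¹ h.ms
  cv := fun x hx y hy a b ha hb hab => by
    have := h.cv hx hy ha hb hab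
    change θ⁻¹ • (a • x + b • y) ∈ K
    rwa [smul_add, smul_comm θ⁻¹ a, smul_comm θ⁻¹ b]
  ng := fun y hy => by
    change θ⁻¹ • (-y) ∈ K
    rw [smul_neg]; exact h.ng _ hy

omit [Fintype ι] in
theorem SC.inter {K L : Set (ι → ℝ)} (h : SC K) (h' : SC L) : SC (K ∩ L) :=
  ⟨h.ms.inter h'.ms, h.cv.inter h'.cv, fun y hy => ⟨h.ng y hy.1, h'.ng y hy.2⟩⟩

omit [Fintype ι] in
theorem SC.half {K : Set (ι → ℝ)} (h : SC K) {x y : ι → ℝ} (hx : x ∈ K) (hy : y ∈ K) :
    (1 / 2 : ℝ) • (x - y) ∈ K := by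
  have := h.cv hx (h.ng y hy) (a := 1 / 2) (b := 1 / 2) (by norm_num) (by norm_num) (by norm_num)
  rwa [← smul_add, ← sub_eq_add_neg] at this

/-- The weak correlation inequality. -/
theorem px_li {K L : Set (ι → ℝ)} (hK : SC K) (hL : SC L) {c s : ℝ} (hc : 0 < c) (hs : 0 < s)
    (h : c ^ 2 + s ^ 2 = 1) : gam ι (dil c K) * gam ι (dil s L) ≤ gam ι (K ∩ L) := by
  have m := (hK.dil c).ms.prod (hL.dil s).ms
  have T := px_rot (ι := ι) h
  rw [← Measure.prod_prod, ← T.measure_preimage m.nullMeasurableSet,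
    Measure.prod_apply_symm (T.measurable m)]
  refine (lintegral_mono fun y => px_anderson (M := K ∩ L)
    (measurable_prodMk_right (T.measurable m)) (hK.inter hL).ms fun x hx x' hx' => ?_).trans
    (by simp)
  have h1 := hK.half hx.1 hx'.1
  have h2 := hL.half hx'.2 hx.2
  have e1 : c⁻¹ • (c • x + s • y) - c⁻¹ • (c • x' + s • y) = x - x' := by
    rw [← smul_sub, add_sub_add_right_eq_sub, ← smul_sub, inv_smul_smul₀ hc.ne']
  have e2 : s⁻¹ • ((-s) • x' + c • y) - s⁻¹ • ((-s) • x + c • y) = x - x' := by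
    rw [← smul_sub, add_sub_add_right_eq_sub, neg_smul, neg_smul, neg_sub_neg, ← smul_sub,
      inv_smul_smul₀ hs.ne']
  exact ⟨e1 ▸ h1, e2 ▸ h2⟩

omit [Fintype ι] in
theorem dil_dil {c r : ℝ} (K : Set (ι → ℝ)) : dil c (dil r K) = dil (c * r) K := by
  ext y
  simp only [dil, mem_ofPred_eq, smul_smul, _root_.mul_inv_rev]

theorem px_li_iter {K : ℕ → Set (ι → ℝ)} (hK : ∀ j, SC (K j)) {θ : ℕ → ℝ} (hθ : ∀ j, 0 < θ j)
    (J : ℕ) : SC {y | ∀ j < J, y ∈ K j} ∧ ∀ r : ℝ, 0 < r → ∑ j ∈ Finset.range J, θ j ^ 2 < r ^ 2 →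
      ∏ j ∈ Finset.range J, gam ι (dil (θ j) (K j)) ≤ gam ι (dil r {y | ∀ j < J, y ∈ K j}) := by
  induction J with
  | zero =>
    have e : {y : ι → ℝ | ∀ j < 0, y ∈ K j} = univ := by ext y; simp
    rw [e]
    exact ⟨⟨MeasurableSet.univ, convex_univ, fun _ _ => mem_univ _⟩, fun r _ _ => by simp [dil]⟩
  | succ J ih =>
    have e : {y : ι → ℝ | ∀ j < J + 1, y ∈ K j} = {y | ∀ j < J, y ∈ K j} ∩ K J := by
      ext y
      simp only [mem_ofPred_eq, mem_inter_iff, Nat.lt_succ_iff_lt_or_eq, or_imp, forall_and,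
        forall_eq]
    rw [e]
    refine ⟨ih.1.inter (hK J), fun r hr hs => ?_⟩
    rw [Finset.sum_range_succ] at hs
    have h0 : 0 ≤ ∑ j ∈ Finset.range J, θ j ^ 2 := Finset.sum_nonneg fun _ _ => sq_nonneg _
    have h1 : 0 < r ^ 2 - θ J ^ 2 := by linarith
    have h2 := Real.sqrt_pos.2 h1
    have h3 := Real.sq_sqrt h1.le
    have h4 := px_li (ih.1.dil r) ((hK J).dil r) (div_pos h2 hr) (div_pos (hθ J) hr) (by
      rw [div_pow, div_pow, h3]; field_simp; ring)
    rw [dil_dil, dil_dil, div_mul_cancel₀ _ hr.ne', div_mul_cancel₀ _ hr.ne'] at h4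
    rw [Finset.prod_range_succ]
    exact (mul_le_mul_left (ih.2 _ h2 (by linarith)) _).trans h4

theorem px_li_one {K : ℕ → Set (ι → ℝ)} (hK : ∀ j, SC (K j)) {θ : ℕ → ℝ} (hθ : ∀ j, 0 < θ j)
    (J : ℕ) (h : ∑ j ∈ Finset.range J, θ j ^ 2 < 1) :
    ∏ j ∈ Finset.range J, gam ι (dil (θ j) (K j)) ≤ gam ι {y | ∀ j < J, y ∈ K j} := by
  simpa [dil] using (px_li_iter hK hθ J).2 1 one_pos (by simpa using h)

end Pool.Agent.MS
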