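import Pool.Agent.Lib.MP_e2be92_co.PX.SB
import Pool.Agent.Lib.MP_e2be92_co.PX.Li

/-! One level: all blocks of a partition at once. -/

open Matrix MeasureTheory

namespace Pool.Agent.MS

variable {ι κ : Type} [Fintype ι] [DecidableEq ι] [Fintype κ] [DecidableEq κ]

/-- Standing hypotheses on the matrices. -/
structure Con (A : ι → Matrix κ κ ℝ) : Prop where
  sym : ∀ i, (A i)ᵀ = A i
  con : ∀ i (u : κ → ℝ), (A i *ᵥ u) ⬝ᵥ (A i *ᵥ u) ≤ u ⬝ᵥ u
  flip : ∃ Q : Matrix κ κ ℝ, Q * Qᵀ = 1 ∧ ∀ i, Q * A i * Qᵀ = - A i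

/-- Coefficient vectors with small sums over all sets of a family. -/
def Kf {T : Type} (A : ι → Matrix κ κ ℝ) (S : T → Finset ι) (β : ℝ) : Set (ι → ℝ) :=
  {y | ∀ t (u : κ → ℝ), ∑ i ∈ S t, y i * (u ⬝ᵥ (A i *ᵥ u)) ≤ β * (u ⬝ᵥ u)}

omit [DecidableEq ι] in
theorem Con.sc {T : Type} {A : ι → Matrix κ κ ℝ} (h : Con A) (S : T → Finset ι) (β : ℝ) :
    SC (Kf A S β) := by
  refine ⟨IsClosed.measurableSet ?_, ?_, ?_⟩
  · unfold Kf
    simp only [Set.ofPred_forall]
    exact isClosed_iInter fun t => isClosed_iInter fun u =>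
      isClosed_le (by fun_prop) continuous_const
  · intro x hx y hy a b ha hb hab t u
    have e : ∑ i ∈ S t, (a • x + b • y) i * (u ⬝ᵥ (A i *ᵥ u)) =
        a * ∑ i ∈ S t, x i * (u ⬝ᵥ (A i *ᵥ u)) + b * ∑ i ∈ S t, y i * (u ⬝ᵥ (A i *ᵥ u)) := by
      simp only [Pi.add_apply, Pi.smul_apply, smul_eq_mul, add_mul, Finset.sum_add_distrib,
        Finset.mul_sum, mul_assoc]
    rw [e]
    calc _ ≤ a * (β * (u ⬝ᵥ u)) + b * (β * (u ⬝ᵥ u)) :=
          add_le_add (mul_le_mul_of_nonneg_left (hx t u) ha) (mul_le_mul_of_nonneg_left (hy t u) hb)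
      _ = (a + b) * (β * (u ⬝ᵥ u)) := by ring
      _ = _ := by rw [hab, one_mul]
  · obtain ⟨Q, hQ, hQA⟩ := h.flip
    intro y hy t u
    have k1 := hy t (Qᵀ *ᵥ u)
    have e1 : ∀ B : Matrix κ κ ℝ, (Qᵀ *ᵥ u) ⬝ᵥ (B *ᵥ (Qᵀ *ᵥ u)) = u ⬝ᵥ ((Q * B * Qᵀ) *ᵥ u) := by
      intro B
      rw [Matrix.mulVec_transpose, ← Matrix.dotProduct_mulVec, ← Matrix.mulVec_transpose,
        Matrix.mulVec_mulVec, Matrix.mulVec_mulVec]
    have e2 : (Qᵀ *ᵥ u) ⬝ᵥ (Qᵀ *ᵥ u) = u ⬝ᵥ u := by
      have := e1 1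
      rwa [Matrix.one_mulVec, Matrix.mul_one, hQ, Matrix.one_mulVec] at this
    simp only [e1, e2, hQA, Matrix.neg_mulVec, dotProduct_neg] at k1
    simpa only [Pi.neg_apply, neg_mul, mul_neg] using k1

omit [Fintype ι] [DecidableEq ι] [DecidableEq κ] in
theorem Kf_dil {T : Type} (A : ι → Matrix κ κ ℝ) (S : T → Finset ι) (β : ℝ) {θ : ℝ} (hθ : 0 < θ) :
    Kf A S β ⊆ dil θ (Kf A S (β / θ)) := by
  intro y hy t u
  simp only [Pi.smul_apply, smul_eq_mul, mul_assoc, ← Finset.mul_sum]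
  rw [inv_mul_le_iff₀ hθ, ← mul_assoc, mul_div_cancel₀ _ hθ.ne']
  exact hy t u

variable {α : Type} [Fintype α] [DecidableEq α]

omit [DecidableEq κ] in
theorem bd_mulVec (M : α → Matrix κ κ ℝ) (u : κ × α → ℝ) (x : κ × α) :
    (blockDiagonal M *ᵥ u) x = (M x.2 *ᵥ fun k => u (k, x.2)) x.1 := by
  simp [mulVec, dotProduct, Fintype.sum_prod_type, blockDiagonal_apply]

omit [DecidableEq κ] [DecidableEq α] in
theorem bd_dot (v w : κ × α → ℝ) :
    v ⬝ᵥ w = ∑ a, (fun k => v (k, a)) ⬝ᵥ fun k => w (k, a) := by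
  simp only [dotProduct, Fintype.sum_prod_type_right]

omit [DecidableEq κ] in
theorem bd_form (M : α → Matrix κ κ ℝ) (v u : κ × α → ℝ) :
    v ⬝ᵥ (blockDiagonal M *ᵥ u) = ∑ a, (fun k => v (k, a)) ⬝ᵥ (M a *ᵥ fun k => u (k, a)) := by
  rw [bd_dot]
  simp only [bd_mulVec]

omit [DecidableEq κ] in
theorem bd_fro (M : α → Matrix κ κ ℝ) : fro (blockDiagonal M) = ∑ a, fro (M a) := by
  simp [fro, Fintype.sum_prod_type_right, blockDiagonal_apply]

/-- All sets of a family at once. -/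
theorem px_level {A : ι → Matrix κ κ ℝ} (h : Con A) (S : α → Finset ι) {σ v b w : ℝ} (hσ : 0 < σ)
    (hv : 0 < v) (hb : 10 ≤ b) (hp : ∀ a, ((S a).card : ℝ) ≤ σ ^ 2)
    (hw : ∀ i, ((Finset.univ.filter fun a => i ∈ S a).card : ℝ) ≤ w) :
    ENNReal.ofReal (Real.exp (-(Fintype.card ι * (w * Fintype.card κ) / (2 * v)
      + 30 * Fintype.card ι / b
      + 3840 * v * (Fintype.card κ * Fintype.card α) / (σ ^ 2 * b ^ 5)))) ≤
      gam ι (Kf A S (b * σ)) := by
  set M : ι → α → Matrix κ κ ℝ := fun i a => if i ∈ S a then A i else 0 with hM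
  have key := px_ball (fun i => blockDiagonal (M i)) (Φ := Fintype.card ι * (w * Fintype.card κ))
    (fun i => ?_) ?_ hσ hv hb (fun u => ?_) ?_
  · rw [Fintype.card_prod, Nat.cast_mul] at key
    refine key.trans (measure_mono fun y hy a u => ?_)
    have h1 := hy fun x => if x.2 = a then u x.1 else 0
    have e : ∀ (N : Matrix κ κ ℝ) (a' : α), ((fun k => if a' = a then u k else 0) ⬝ᵥ
        (N *ᵥ fun k => if a' = a then u k else 0)) = if a' = a then u ⬝ᵥ (N *ᵥ u) else 0 := by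
      intro N a'
      by_cases h' : a' = a <;> simp [h', dotProduct]
    have e' : ∀ a' : α, ((fun k => if a' = a then u k else 0) ⬝ᵥ
        fun k => if a' = a then u k else 0) = if a' = a then u ⬝ᵥ u else 0 := by
      intro a'
      by_cases h' : a' = a <;> simp [h', dotProduct]
    rw [Xm, Matrix.sum_mulVec, dotProduct_sum, bd_dot] at h1
    simp only [Matrix.smul_mulVec, dotProduct_smul, smul_eq_mul, bd_form, e, e',
      Finset.sum_ite_eq', Finset.mem_univ, if_true] at h1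
    refine le_trans (le_of_eq ?_) h1
    rw [← Finset.sum_ite_mem_eq]
    refine Finset.sum_congr rfl fun i _ => ?_
    by_cases h' : i ∈ S a <;> simp [hM, h']
  · rw [blockDiagonal_transpose]
    congr 1
    funext a
    by_cases h' : i ∈ S a <;> simp [hM, h', h.sym]
  · obtain ⟨Q, hQ, hQA⟩ := h.flip
    refine ⟨blockDiagonal fun _ => Q, ?_, fun i => ?_⟩
    · rw [blockDiagonal_transpose, ← blockDiagonal_mul]
      simp only [hQ]
      exact blockDiagonal_one
    · rw [blockDiagonal_transpose, ← blockDiagonal_mul, ← blockDiagonal_mul, ← blockDiagonal_neg]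
      congr 1
      funext a
      by_cases h' : i ∈ S a <;> simp [hM, h', hQA]
  · have e : ∀ i, (blockDiagonal (M i) *ᵥ u) ⬝ᵥ (blockDiagonal (M i) *ᵥ u) ≤
        ∑ a, if i ∈ S a then (fun k => u (k, a)) ⬝ᵥ fun k => u (k, a) else 0 := by
      intro i
      rw [bd_dot]
      refine Finset.sum_le_sum fun a _ => ?_
      simp only [bd_mulVec]
      by_cases h' : i ∈ S a
      · simp only [hM, h', if_true]
        exact h.con i _
      · simp [hM, h', dotProduct]
    refine (Finset.sum_le_sum fun i _ => e i).trans ?_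
    rw [Finset.sum_comm, bd_dot, Finset.mul_sum]
    refine Finset.sum_le_sum fun a _ => ?_
    rw [Finset.sum_ite_mem_eq, Finset.sum_const, nsmul_eq_mul]
    exact mul_le_mul_of_nonneg_right (hp a) (dot_self_nonneg _)
  · calc _ ≤ ∑ _i : ι, w * (Fintype.card κ : ℝ) := Finset.sum_le_sum fun i _ => by
          rw [bd_fro]
          have : ∀ a, fro (M i a) = if i ∈ S a then fro (A i) else 0 := fun a => by
            by_cases h' : i ∈ S a <;> simp [hM, h', fro]
          simp only [this]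
          rw [← Finset.sum_filter, Finset.sum_const, nsmul_eq_mul]
          exact mul_le_mul (hw i) (vred_fro_le _ (h.con i)) (by unfold fro; positivity)
            ((Nat.cast_nonneg _).trans (hw i))
      _ = _ := by simp

end Pool.Agent.MS
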