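import Pool.Agent.Lib.MP_e2be92_co.PX.Lev

/-! All dyadic levels together: the small-ball estimate for all initial segments. -/

open Matrix MeasureTheory

namespace Pool.Agent.MS

variable {ι κ : Type} [Fintype ι] [DecidableEq ι] [Fintype κ] [DecidableEq κ]

theorem px_geom {ρ : ℝ} (h0 : 0 ≤ ρ) (h1 : ρ < 1) (J : ℕ) :
    ∑ j ∈ Finset.range J, ρ ^ j ≤ (1 - ρ)⁻¹ :=
  ((summable_geometric_of_lt_one h0 h1).sum_le_tsum _ fun _ _ => pow_nonneg h0 _).trans_eq
    (tsum_geometric_of_lt_one h0 h1)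

omit [DecidableEq ι] in
/-- An initial segment is a union of at most one dyadic block per level. -/
theorem px_dyadic (r : ι → ℕ) (q : ι → ℝ) (β : ℕ → ℝ) (K : ℕ) (h0 : ∀ k, 0 ≤ β k)
    (h : ∀ k ≤ K, ∀ a, ∑ i with r i / 2 ^ k = a, q i ≤ β k) (n : ℕ) :
    ∀ k a, k + n ≤ K + 1 → a < 2 ^ n →
      ∑ i with r i / 2 ^ k < a, q i ≤ ∑ j ∈ Finset.range n, β (k + j) := by
  induction n with
  | zero =>
    intro k a _ ha
    obtain rfl : a = 0 := by simpa using ha
    simp
  | succ n ih =>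
    intro k a hk ha
    have h1 := ih (k + 1) (a / 2) (by omega) (by rw [pow_succ] at ha; omega)
    have e : ∀ i, r i / 2 ^ (k + 1) = r i / 2 ^ k / 2 := fun i => by
      rw [pow_succ, Nat.div_div_eq_div_mul]
    simp only [e] at h1
    rw [Finset.sum_range_succ', add_zero]
    simp only [← add_assoc, add_right_comm k _ 1]
    rcases Nat.mod_two_eq_zero_or_one a with h2 | h2
    · rw [Finset.filter_congr (q := fun i => r i / 2 ^ k / 2 < a / 2) fun i _ => by omega]
      linarith [h0 k]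
    · have h3 := h k (by omega) (a - 1)
      have e2 : ∑ i with r i / 2 ^ k < a, q i = ∑ i with r i / 2 ^ k / 2 < a / 2, q i
          + ∑ i with r i / 2 ^ k = a - 1, q i := by
        simp only [Finset.sum_filter, ← Finset.sum_add_distrib]
        refine Finset.sum_congr rfl fun i _ => ?_
        split_ifs <;> first | omega | simp
      linarith

omit [DecidableEq ι] in
theorem px_fibre {r : ι → ℕ} (hr : Function.Injective r) (k a : ℕ) :
    (Finset.univ.filter fun i => r i / 2 ^ k = a).card ≤ 2 ^ k := by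
  refine (Finset.card_le_card_of_injOn (t := Finset.range (2 ^ k)) (fun i => r i % 2 ^ k)
    (fun i _ => Finset.mem_coe.2 (Finset.mem_range.2 (Nat.mod_lt _ (by positivity))))
    fun i hi j hj hij => hr ?_).trans (Finset.card_range _).le
  have h1 := (Finset.mem_filter.1 (Finset.mem_coe.1 hi)).2
  have h2 := (Finset.mem_filter.1 (Finset.mem_coe.1 hj)).2
  rw [← Nat.div_add_mod (r i) (2 ^ k), ← Nat.div_add_mod (r j) (2 ^ k), h1, h2]
  exact congrArg _ hij

theorem px_cost {m d P W R : ℝ} (hP : 0 < P) (hm : P ≤ m) (hd : 0 < d) (hW : W ^ 2 = P)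
    (hR : 1 ≤ R) (hR5 : R ^ 5 = (d / P) ^ 2) (j : ℕ) :
    m * d / (2 * (100 * (21 / 20) ^ j * d)) + 30 * m / (6000 * R * (27 / 20) ^ j)
      + 3840 * (100 * (21 / 20) ^ j * d) * (d * 2 ^ (j + 1)) /
        ((W * (71 / 100) ^ j) ^ 2 * (6000 * R * (27 / 20) ^ j) ^ 5) ≤ m / 84 * (20 / 21) ^ j := by
  have hx : (0 : ℝ) < (21 / 20) ^ j := by positivity
  have hz : (0 : ℝ) < (27 / 20) ^ j := by positivity
  have hw : (0 : ℝ) < (71 / 100) ^ j := by positivity
  have ht : (0 : ℝ) < 2 ^ j := by positivity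
  have h1 : ((21 : ℝ) / 20) ^ j ≤ (27 / 20) ^ j := pow_le_pow_left₀ (by norm_num) (by norm_num) j
  have h2 : ((21 : ℝ) / 20) ^ j * (21 / 20) ^ j * 2 ^ j ≤
      ((71 / 100) ^ j) ^ 2 * ((27 / 20) ^ j) ^ 5 := by
    rw [← pow_mul, ← pow_mul, mul_comm j, mul_comm j, pow_mul, pow_mul, ← mul_pow, ← mul_pow,
      ← mul_pow]
    exact pow_le_pow_left₀ (by norm_num) (by norm_num) j
  have e0 : ((20 : ℝ) / 21) ^ j = ((21 / 20) ^ j)⁻¹ := by rw [← inv_pow, inv_div]
  rw [e0, pow_succ 2 j, mul_pow W, hW, mul_pow _ _ 5, mul_pow _ R, hR5]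
  generalize ((21 : ℝ) / 20) ^ j = x at *
  generalize ((27 : ℝ) / 20) ^ j = z at *
  generalize ((71 : ℝ) / 100) ^ j = w at *
  generalize (2 : ℝ) ^ j = t at *
  have hm0 : 0 < m := hP.trans_le hm
  have t1 : m * d / (2 * (100 * x * d)) = m / 200 * x⁻¹ := by field_simp; ring
  have t2 : 30 * m / (6000 * R * z) ≤ m / 200 * x⁻¹ := by
    have : x ≤ R * z := h1.trans (le_mul_of_one_le_left hz.le hR)
    calc 30 * m / (6000 * R * z) = m / 200 * (R * z)⁻¹ := by field_simp; ring
      _ ≤ _ := by gcongr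
  have t3 : 3840 * (100 * x * d) * (d * (t * 2)) / (P * w ^ 2 * (6000 ^ 5 * (d / P) ^ 2 * z ^ 5))
      ≤ m / 1000 * x⁻¹ := by
    calc _ = 768000 / 6000 ^ 5 * P * (x * x * t / (w ^ 2 * z ^ 5)) * x⁻¹ := by field_simp; ring
      _ ≤ 1 / 1000 * m * 1 * x⁻¹ :=
        mul_le_mul_of_nonneg_right (mul_le_mul (mul_le_mul (by norm_num) hm hP.le (by norm_num))
          ((div_le_one (by positivity)).2 h2) (by positivity) (by positivity)) (by positivity)
      _ = _ := by ring
  have : 0 < m * x⁻¹ := by positivity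
  linarith

/-- The small-ball estimate for all initial segments. -/
theorem px_prefix {O : Type} [Fintype O] [DecidableEq O] {A : ι → Matrix κ κ ℝ} (h : Con A)
    {r : O → ι → ℕ} (hr : ∀ o, Function.Injective (r o)) (hlt : ∀ o i, r o i < Fintype.card ι)
    (h1 : 1 ≤ Fintype.card ι) (h2 : Fintype.card ι ≤ Fintype.card O * Fintype.card κ) :
    ENNReal.ofReal (Real.exp (-(Fintype.card ι : ℝ) / 4)) ≤
      gam ι (Kf A (fun s : O × ℕ => Finset.univ.filter fun i => r s.1 i < s.2)
        (1800000 * (Fintype.card O * Fintype.card κ : ℝ) ^ (2 / 5 : ℝ) *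
          (Fintype.card ι : ℝ) ^ (1 / 10 : ℝ))) := by
  set K := Nat.log 2 (Fintype.card ι) with hK
  have hK1 : 2 ^ K ≤ Fintype.card ι := Nat.pow_log_le_self 2 (by omega)
  have hK2 : Fintype.card ι < 2 ^ (K + 1) := Nat.lt_pow_succ_log_self one_lt_two _
  set m : ℝ := (Fintype.card ι : ℝ) with hm
  set d : ℝ := (Fintype.card O * Fintype.card κ : ℝ) with hd
  set P : ℝ := 2 ^ K with hP
  have hP0 : 0 < P := by positivity
  have hPm : P ≤ m := by rw [hP, hm]; exact_mod_cast hK1
  have hmd : m ≤ d := by rw [hm, hd]; exact_mod_cast h2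
  have hd0 : 0 < d := (hP0.trans_le hPm).trans_le hmd
  set W := √P with hW
  have hW0 : 0 < W := Real.sqrt_pos.2 hP0
  have hW2 : W ^ 2 = P := Real.sq_sqrt hP0.le
  set R := (d / P) ^ (2 / 5 : ℝ) with hR
  have hR1 : 1 ≤ R := Real.one_le_rpow ((one_le_div hP0).2 (hPm.trans hmd)) (by norm_num)
  have hR5 : R ^ 5 = (d / P) ^ 2 := by
    rw [hR, ← Real.rpow_natCast, ← Real.rpow_mul (by positivity)]
    norm_num
  have hRW : R * W ≤ d ^ (2 / 5 : ℝ) * m ^ (1 / 10 : ℝ) := by
    have e1 : P ^ (1 / 10 : ℝ) * P ^ (2 / 5 : ℝ) = W := by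
      rw [← Real.rpow_add hP0, hW, Real.sqrt_eq_rpow]; norm_num
    have e2 : 0 < P ^ (2 / 5 : ℝ) := by positivity
    calc R * W = d ^ (2 / 5 : ℝ) * P ^ (1 / 10 : ℝ) := by
          rw [hR, Real.div_rpow hd0.le hP0.le, ← e1]; field_simp
      _ ≤ _ := by gcongr
  have hp : ∀ o j i, r o i / 2 ^ (K - j) < 2 ^ (j + 1) := fun o j i => by
    rw [Nat.div_lt_iff_lt_mul (by positivity), ← pow_add]
    exact ((hlt o i).trans hK2).trans_le (Nat.pow_le_pow_right two_pos (by omega))
  let S : (j : ℕ) → O × Fin (2 ^ (j + 1)) → Finset ι := fun j a =>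
    Finset.univ.filter fun i => r a.1 i / 2 ^ (K - j) = a.2
  let θ : ℕ → ℝ := fun j => 1 / 6 * (49 / 50) ^ j
  let β : ℕ → ℝ := fun j => 6000 * R * (27 / 20) ^ j * (W * (71 / 100) ^ j)
  have hθ : ∀ j, 0 < θ j := fun j => by positivity
  have hβ : ∀ j, 0 ≤ β j / θ j := fun j => by positivity
  have li := px_li_one (K := fun j => Kf A (S j) (β j / θ j)) (fun j => h.sc _ _) hθ (K + 1) (by
      have := px_geom (ρ := (49 / 50) ^ 2) (by norm_num) (by norm_num) (K + 1)
      simp only [θ, mul_pow, ← Finset.mul_sum, ← pow_mul, mul_comm _ 2]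
      simp only [← pow_mul] at this
      norm_num at this ⊢
      linarith)
  refine le_trans ?_ (li.trans (measure_mono fun y hy s u => ?_))
  · have lev : ∀ j ∈ Finset.range (K + 1), ENNReal.ofReal (Real.exp (-(m / 84 * (20 / 21) ^ j))) ≤
        gam ι (dil (θ j) (Kf A (S j) (β j / θ j))) := by
      intro j hj
      have hj' : j ≤ K := Nat.lt_succ_iff.1 (Finset.mem_range.1 hj)
      have h3 := px_level h (S j) (w := Fintype.card O) (σ := W * (71 / 100) ^ j) (v := 100 * (21 / 20) ^ j * d)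
        (b := 6000 * R * (27 / 20) ^ j) (by positivity) (by positivity)
        (by
          have : (1 : ℝ) ≤ (27 / 20) ^ j := one_le_pow₀ (by norm_num)
          nlinarith)
        (fun a => by
          have h4 : ((S j a).card : ℝ) ≤ 2 ^ (K - j) := by exact_mod_cast px_fibre (hr _) _ _
          have h5 : (1 : ℝ) ≤ 2 ^ j * ((71 / 100) ^ j) ^ 2 := by
            rw [← pow_mul, mul_comm j, pow_mul, ← mul_pow]
            exact one_le_pow₀ (by norm_num)
          have h6 : P = 2 ^ (K - j) * 2 ^ j := by rw [hP, ← pow_add, Nat.sub_add_cancel hj']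
          rw [mul_pow, hW2, h6, mul_assoc]
          exact h4.trans (le_mul_of_one_le_right (by positivity) h5))
        (fun i => Nat.cast_le.2 (Finset.card_le_card_of_injOn (t := Finset.univ) Prod.fst
          (fun _ _ => Finset.mem_coe.2 (Finset.mem_univ _)) fun a ha a' ha' e => by
            have h4 := (Finset.mem_filter.1 (Finset.mem_filter.1 (Finset.mem_coe.1 ha)).2).2
            have h5 := (Finset.mem_filter.1 (Finset.mem_filter.1 (Finset.mem_coe.1 ha')).2).2
            exact Prod.ext e (Fin.ext (by rw [← h4, ← h5, e]))))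
      rw [Fintype.card_prod, Fintype.card_fin, Nat.cast_mul, Nat.cast_pow, Nat.cast_ofNat,
        ← mul_assoc (Fintype.card κ : ℝ), mul_comm (Fintype.card κ : ℝ), ← hd] at h3
      exact (ENNReal.ofReal_le_ofReal (Real.exp_le_exp.2 (neg_le_neg
        (px_cost hP0 hPm hd0 hW2 hR1 hR5 j)))).trans (h3.trans (measure_mono
          (Kf_dil _ _ _ (hθ j))))
    refine le_trans ?_ (Finset.prod_le_prod' lev)
    rw [← ENNReal.ofReal_prod_of_nonneg fun _ _ => (Real.exp_pos _).le, ← Real.exp_sum]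
    refine ENNReal.ofReal_le_ofReal (Real.exp_le_exp.2 ?_)
    have := px_geom (ρ := 20 / 21) (by norm_num) (by norm_num) (K + 1)
    rw [Finset.sum_neg_distrib, ← Finset.mul_sum]
    norm_num at this
    nlinarith
  · have hu := dot_self_nonneg u
    have key := px_dyadic (r s.1) (fun i => y i * (u ⬝ᵥ (A i *ᵥ u)))
      (fun k => β (K - k) / θ (K - k) * (u ⬝ᵥ u)) K (fun k => mul_nonneg (hβ _) hu)
      (fun k hk a => by
        by_cases ha : a < 2 ^ (K - k + 1)
        · have h3 := hy (K - k) (by omega) (s.1, ⟨a, ha⟩) u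
          simpa only [S, Nat.sub_sub_self hk] using h3
        · rw [Finset.filter_false_of_mem fun i _ hi => ha (by
            have := hp s.1 (K - k) i
            rwa [Nat.sub_sub_self hk, hi] at this), Finset.sum_empty]
          exact mul_nonneg (hβ _) hu)
      (K + 1) 0 (min s.2 (Fintype.card ι)) (by omega) ((min_le_right _ _).trans_lt hK2)
    simp only [pow_zero, Nat.div_one, zero_add, lt_min_iff, hlt, and_true] at key
    refine key.trans ?_
    rw [← Finset.sum_mul]
    refine mul_le_mul_of_nonneg_right ?_ hu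
    have e : ∑ k ∈ Finset.range (K + 1), β (K - k) / θ (K - k) =
        ∑ j ∈ Finset.range (K + 1), β j / θ j :=
      Finset.sum_range_reflect (fun j => β j / θ j) (K + 1)
    have h3 : ∀ j, β j / θ j ≤ 36000 * (R * W) * (49 / 50) ^ j := fun j => by
      have h4 : ((27 : ℝ) / 20) ^ j * (71 / 100) ^ j ≤ (49 / 50) ^ j * (49 / 50) ^ j := by
        rw [← mul_pow, ← mul_pow]
        exact pow_le_pow_left₀ (by norm_num) (by norm_num) j
      rw [div_le_iff₀ (hθ j)]
      have h5 : 0 ≤ R * W := by positivity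
      simp only [β, θ]
      nlinarith [mul_le_mul_of_nonneg_left h4 h5]
    have h6 := px_geom (ρ := 49 / 50) (by norm_num) (by norm_num) (K + 1)
    rw [e]
    refine (Finset.sum_le_sum fun j _ => h3 j).trans ?_
    rw [← Finset.mul_sum]
    have h5 : 0 ≤ R * W := by positivity
    norm_num at h6
    nlinarith [mul_le_mul_of_nonneg_left h6 h5]

end Pool.Agent.MS
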