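import Pool.Agent.Lib.MP_e2be92_co.Ball
import Pool.Agent.Lib.MP_e2be92_co.VRed

/-! The small-ball estimate with free parameters. -/

open Matrix MeasureTheory

namespace Pool.Agent.MS

variable {ι κ : Type} [Fintype ι] [DecidableEq ι] [Fintype κ] [DecidableEq κ]

omit [DecidableEq κ] in
theorem px_vred (A : ι → Matrix κ κ ℝ) {Φ v : ℝ} (hv : 0 < v) (hΦ : ∑ i, fro (A i) ≤ Φ) :
    ∃ L : Matrix ι ι ℝ, (∀ y, (L *ᵥ y) ⬝ᵥ (L *ᵥ y) ≤ y ⬝ᵥ y) ∧
      (∀ y, (Lᵀ *ᵥ y) ⬝ᵥ (Lᵀ *ᵥ y) ≤ y ⬝ᵥ y) ∧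
      (∀ y, fro (Xm A (L *ᵥ y)) ≤ v * (y ⬝ᵥ y)) ∧
      Real.exp (-(Φ / (2 * v))) ≤ |L.det| := by
  set E : Matrix (κ × κ) ι ℝ := Matrix.of fun (p : κ × κ) i => A i p.1 p.2 with hE
  obtain ⟨O, g, h1, h2, h3⟩ := vred_spectral (Eᵀ * E) (by simp)
  have hq : ∀ z, fro (Xm A (O *ᵥ z)) = ∑ i, g i * z i ^ 2 := by
    intro z
    rw [vred_fro, ← hE, mulVec_mulVec, vred_dot, transpose_mul, Matrix.mul_assoc,
      ← Matrix.mul_assoc Eᵀ, h3]
    simp only [← Matrix.mul_assoc, h2, Matrix.one_mul]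
    rw [Matrix.mul_assoc, h2, Matrix.mul_one]
    refine Finset.sum_congr rfl fun i _ => ?_
    rw [mulVec_diagonal]; ring
  have hg : ∀ i, 0 ≤ g i := by
    intro i
    have h4 : 0 ≤ fro (Xm A (O *ᵥ Pi.single i 1)) := by unfold fro; positivity
    rw [hq] at h4
    simpa [Pi.single_apply] using h4
  have htr : ∑ i, g i ≤ Φ := by
    have h4 : trace (Eᵀ * E) = ∑ i, g i := by
      rw [h3, trace_mul_comm, ← Matrix.mul_assoc, h2, Matrix.one_mul, trace_diagonal]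
    have h5 : trace (Eᵀ * E) = ∑ i, fro (A i) := by
      simp only [trace, diag, Matrix.mul_apply, transpose_apply, hE, Matrix.of_apply, fro,
        Fintype.sum_prod_type, sq]
    rwa [← h4, h5]
  have hp : ∀ i, 0 < 1 + g i / v := fun i => by have := hg i; positivity
  set s : ι → ℝ := fun i => (Real.sqrt (1 + g i / v))⁻¹ with hs
  have hs2 : ∀ i, s i ^ 2 = (1 + g i / v)⁻¹ := fun i => by
    rw [hs, inv_pow, Real.sq_sqrt (hp i).le]
  have hs1 : ∀ i, s i ^ 2 ≤ 1 := fun i => by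
    rw [hs2]
    have := hg i
    exact inv_le_one_of_one_le₀ (le_add_of_nonneg_right (by positivity))
  refine ⟨O * diagonal s, fun y => ?_, fun y => ?_, fun y => ?_, ?_⟩
  · rw [← mulVec_mulVec, vred_orth h2]
    exact vred_diag hs1 y
  · rw [transpose_mul, diagonal_transpose, ← mulVec_mulVec]
    exact (vred_diag hs1 _).trans (vred_orth (by rwa [transpose_transpose]) y).le
  · rw [← mulVec_mulVec, hq, dotProduct, Finset.mul_sum]
    refine Finset.sum_le_sum fun i _ => ?_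
    rw [mulVec_diagonal, mul_pow, hs2, ← mul_assoc, ← sq]
    refine mul_le_mul_of_nonneg_right ?_ (sq_nonneg _)
    rw [← div_eq_mul_inv, div_le_iff₀ (hp i), mul_add, mul_div_cancel₀ _ hv.ne']
    linarith
  · have hO : |O.det| = 1 := by
      have h4 := congrArg det h1
      rw [det_mul, det_transpose, det_one] at h4
      rcases mul_self_eq_one_iff.1 h4 with h | h <;> simp [h]
    rw [det_mul, abs_mul, hO, one_mul, det_diagonal]
    refine le_trans ?_ (le_abs_self _)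
    calc Real.exp (-(Φ / (2 * v))) ≤ Real.exp (∑ i, -(g i / v) / 2) := by
          rw [Real.exp_le_exp, ← Finset.sum_div, Finset.sum_neg_distrib, ← Finset.sum_div]
          have : (∑ i, g i) / v ≤ Φ / v := div_le_div_of_nonneg_right htr hv.le
          have e : Φ / (2 * v) = Φ / v / 2 := by field_simp
          linarith
      _ = ∏ i, Real.exp (-(g i / v) / 2) := Real.exp_sum _ _
      _ ≤ ∏ i, s i := by
          refine Finset.prod_le_prod (fun i _ => (Real.exp_pos _).le) fun i _ => ?_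
          refine (pow_le_pow_iff_left₀ (Real.exp_pos _).le (by positivity) two_ne_zero).1 ?_
          rw [hs2, ← Real.exp_nat_mul, show ((2 : ℕ) : ℝ) * (-(g i / v) / 2) =
            -(g i / v) by push_cast; ring, Real.exp_neg]
          exact inv_anti₀ (hp i) (by linarith [Real.add_one_le_exp (g i / v)])

/-- The small-ball estimate with all parameters free. -/
theorem px_ball (A : ι → Matrix κ κ ℝ) (hsym : ∀ i, (A i)ᵀ = A i)
    (hflip : ∃ Q : Matrix κ κ ℝ, Q * Qᵀ = 1 ∧ ∀ i, Q * A i * Qᵀ = - A i) {σ Φ v b : ℝ}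
    (hσ : 0 < σ) (hv : 0 < v) (hb : 10 ≤ b)
    (hA : ∀ u : κ → ℝ, ∑ i, (A i *ᵥ u) ⬝ᵥ (A i *ᵥ u) ≤ σ ^ 2 * (u ⬝ᵥ u))
    (hΦ : ∑ i, fro (A i) ≤ Φ) :
    ENNReal.ofReal (Real.exp (-(Φ / (2 * v) + 30 * Fintype.card ι / b
      + 3840 * v * Fintype.card κ / (σ ^ 2 * b ^ 5)))) ≤
      gam ι {y | ∀ u : κ → ℝ, u ⬝ᵥ (Xm A y *ᵥ u) ≤ b * σ * (u ⬝ᵥ u)} := by
  obtain ⟨L, hL, hLt, hvar, hdet⟩ := px_vred A hv hΦ
  have hσ2 : 0 < σ ^ 2 := by positivity
  have hb0 : 0 < b := by linarith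
  have hS : Setup (fun i => σ⁻¹ • Xm A (fun j => L j i)) (v / (2 * σ ^ 2)) := by
    refine ⟨fun i => ?_, fun u => ?_, fun y => ?_, by positivity, ?_⟩
    · simp only [Xm, transpose_smul, transpose_sum, hsym]
    · simp only [Matrix.smul_mulVec, smul_dotProduct, dotProduct_smul, smul_eq_mul,
        ← mul_assoc, ← Finset.mul_sum, ← sq, inv_pow]
      rw [inv_mul_le_iff₀ hσ2]
      exact (vred_sig A L hLt u).trans (hA u)
    · rw [vred_Xm, vred_fro_smul, inv_pow, inv_mul_le_iff₀ hσ2]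
      refine (hvar y).trans (le_of_eq ?_)
      field_simp
    · obtain ⟨Q, hQ, hQ'⟩ := hflip
      refine ⟨Q, hQ, fun i => ?_⟩
      simp only [Xm, Matrix.mul_smul, Matrix.smul_mul, Matrix.mul_sum, Matrix.sum_mul, hQ',
        smul_neg, Finset.sum_neg_distrib]
  have h0 := smallBall0 ι κ _ b _ hS hb
  have h1 := vred_image L hL (abs_pos.1 ((Real.exp_pos _).trans_le hdet))
    (vred_closed (fun i => σ⁻¹ • Xm A (fun j => L j i)) b).measurableSet
  refine le_trans ?_ (h1.trans (measure_mono ?_))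
  · refine le_trans ?_ (mul_le_mul' (ENNReal.ofReal_le_ofReal hdet) h0)
    rw [← ENNReal.ofReal_mul (Real.exp_pos _).le, ← Real.exp_add]
    refine ENNReal.ofReal_le_ofReal (Real.exp_le_exp.2 (le_of_eq ?_))
    field_simp
    ring
  · rintro _ ⟨y, hy, rfl⟩ u
    have h2 := hy u
    rw [vred_Xm, Matrix.smul_mulVec, dotProduct_smul, smul_eq_mul, inv_mul_le_iff₀ hσ] at h2
    exact h2.trans (le_of_eq (by ring))

end Pool.Agent.MS
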